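import Mathlib

/-!
# MP_375cbb_nt: the initial run of odd denominators of the hypergeometric Bernoulli numbers

For every `b ≥ 1` the first even term of the sequence of the denominators of the hypergeometric
Bernoulli numbers `B_n^{(b)}` is the term with index `2 ^ ν₂(b)`; this is the value in Q1.

Proof. Comparing coefficients, `B_n = - ∑_{k < n} C(n, k) B_k / C(b + n - k, n - k)` for `n ≥ 1`.
Let `q = 2 ^ ν₂(b)`. For `j < q` the number `C(b + j, j)` is odd, and `C(b + q, q)` is even. By
induction the denominator of `B_n` is odd for `n < q`, and `B_q = - 1 / C(b + q, q) + x` where the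
denominator of `x` is odd.
-/

set_option autoImplicit false

open Nat

namespace Pool.Agent.Results.MP_375cbb_nt.InitialOddRun

/-- `B` is the sequence of the hypergeometric Bernoulli numbers `B_n^{(b)}`:
`(∑ B_n z^n / n!) (e^z - ∑_{k < b} z^k / k!) = z^b / b!` as formal power series. -/
def IsHypergeometricBernoulli (b : ℕ) (B : ℕ → ℚ) : Prop :=
  PowerSeries.mk (fun n => B n / (n ! : ℚ)) *
      (PowerSeries.exp ℚ - ∑ k ∈ Finset.range b, PowerSeries.monomial k (1 / (k ! : ℚ))) =
    PowerSeries.monomial b (1 / (b ! : ℚ))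

lemma coeff_kernel (b n : ℕ) :
    PowerSeries.coeff n (PowerSeries.exp ℚ -
      ∑ k ∈ Finset.range b, PowerSeries.monomial k (1 / (k ! : ℚ))) =
      if n < b then 0 else 1 / (n ! : ℚ) := by
  rw [map_sub, PowerSeries.coeff_exp, map_sum]
  simp only [PowerSeries.coeff_monomial]
  simp only [Finset.sum_ite_eq, Finset.mem_range]
  split_ifs <;> simp

/-- the recursion is equivalent to the definition -/
lemma isHyp_iff (b : ℕ) (B : ℕ → ℚ) :
    IsHypergeometricBernoulli b B ↔
      ∀ n, ∑ k ∈ Finset.range (n + 1), B k / (k ! : ℚ) * (1 / ((n - k + b)! : ℚ)) =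
        if n = 0 then 1 / (b ! : ℚ) else 0 := by
  have key : ∀ n, PowerSeries.coeff (n + b) (PowerSeries.mk (fun n => B n / (n ! : ℚ)) *
      (PowerSeries.exp ℚ - ∑ k ∈ Finset.range b, PowerSeries.monomial k (1 / (k ! : ℚ)))) =
      ∑ k ∈ Finset.range (n + 1), B k / (k ! : ℚ) * (1 / ((n - k + b)! : ℚ)) := by
    intro n
    rw [PowerSeries.coeff_mul, Finset.Nat.sum_antidiagonal_eq_sum_range_succ_mk]
    simp only [PowerSeries.coeff_mk, coeff_kernel]
    have hsub : Finset.range (n + 1) ⊆ Finset.range (n + b).succ :=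
      Finset.range_subset_range.mpr (by omega)
    rw [← Finset.sum_subset hsub]
    · apply Finset.sum_congr rfl
      intro k hk
      rw [Finset.mem_range] at hk
      rw [if_neg (by omega)]
      congr 4
      omega
    · intro k hk hk'
      rw [Finset.mem_range] at hk hk'
      rw [if_pos (by omega), mul_zero]
  constructor
  · intro h n
    have h2 := congrArg (PowerSeries.coeff (n + b)) h
    rw [key, PowerSeries.coeff_monomial] at h2
    rw [h2]
    by_cases hn : n = 0
    · rw [if_pos (by omega), if_pos hn]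
    · rw [if_neg (by omega), if_neg hn]
  · intro h
    ext m
    by_cases hm : m < b
    · rw [PowerSeries.coeff_monomial, if_neg (by omega), PowerSeries.coeff_mul]
      apply Finset.sum_eq_zero
      intro x hx
      rw [Finset.HasAntidiagonal.mem_antidiagonal] at hx
      rw [coeff_kernel, if_pos (by omega), mul_zero]
    · obtain ⟨n, rfl⟩ : ∃ n, m = n + b := ⟨m - b, by omega⟩
      rw [key, h n, PowerSeries.coeff_monomial]
      by_cases hn : n = 0
      · rw [if_pos hn, if_pos (by omega)]
      · rw [if_neg hn, if_neg (by omega)]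

/-- recursion in terms of binomial coefficients -/
lemma rec_iff (b : ℕ) (B : ℕ → ℚ) :
    IsHypergeometricBernoulli b B ↔
      B 0 = 1 ∧ ∀ n, 1 ≤ n →
        B n = - ∑ k ∈ Finset.range n, (n.choose k : ℚ) * B k / ((b + (n - k)).choose (n - k) : ℚ) := by
  rw [isHyp_iff]
  have hf : ∀ m : ℕ, (m ! : ℚ) ≠ 0 := fun m => by exact_mod_cast m.factorial_ne_zero
  have hterm : ∀ n k, k ≤ n → B k / (k ! : ℚ) * (1 / ((n - k + b)! : ℚ)) =
      ((n.choose k : ℚ) * B k / ((b + (n - k)).choose (n - k) : ℚ)) / ((n ! : ℚ) * (b ! : ℚ)) := by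
    intro n k hk
    have h1 : (n.choose k : ℚ) * (k ! : ℚ) * ((n - k)! : ℚ) = (n ! : ℚ) := by
      exact_mod_cast Nat.choose_mul_factorial_mul_factorial hk
    have h2 : ((b + (n - k)).choose (n - k) : ℚ) * ((n - k)! : ℚ) * (b ! : ℚ) =
        ((n - k + b)! : ℚ) := by
      have := Nat.choose_mul_factorial_mul_factorial (n := b + (n - k)) (k := n - k) (by omega)
      rw [Nat.add_sub_cancel] at this
      rw [add_comm (n - k) b]
      exact_mod_cast this
    have h3 : ((b + (n - k)).choose (n - k) : ℚ) ≠ 0 := by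
      exact_mod_cast (Nat.choose_pos (by omega)).ne'
    have h4 : (n.choose k : ℚ) ≠ 0 := by exact_mod_cast (Nat.choose_pos hk).ne'
    rw [← h1, ← h2]
    field_simp [hf k, hf (n - k), hf b, h3, h4]
  constructor
  · intro h
    refine ⟨?_, ?_⟩
    · have h0 := h 0
      rw [if_pos rfl, Finset.sum_range_one] at h0
      simp only [Nat.factorial_zero, Nat.cast_one, div_one, Nat.sub_self, Nat.zero_add] at h0
      have := hf b
      field_simp at h0
      exact h0
    · intro n hn
      have h0 := h n
      rw [if_neg (by omega), Finset.sum_congr rfl (fun k hk => hterm n k (by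
        rw [Finset.mem_range] at hk; omega)), ← Finset.sum_div, div_eq_zero_iff] at h0
      have h1 : (n ! : ℚ) * (b ! : ℚ) ≠ 0 := mul_ne_zero (hf n) (hf b)
      rcases h0 with h0 | h0
      · rw [Finset.sum_range_succ] at h0
        simp only [Nat.choose_self, Nat.cast_one, one_mul, Nat.sub_self, Nat.choose_zero_right,
          div_one] at h0
        linarith
      · exact absurd h0 h1
  · rintro ⟨h0, h⟩ n
    by_cases hn : n = 0
    · subst hn
      rw [if_pos rfl, Finset.sum_range_one]
      simp [h0]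
    · rw [if_neg hn, Finset.sum_congr rfl (fun k hk => hterm n k (by
        rw [Finset.mem_range] at hk; omega)), ← Finset.sum_div, Finset.sum_range_succ]
      simp only [Nat.choose_self, Nat.cast_one, one_mul, Nat.sub_self, Nat.choose_zero_right,
          div_one]
      rw [h n (by omega)]
      simp

/-- existence and uniqueness of the hypergeometric Bernoulli numbers -/
lemma existsUnique (b : ℕ) : ∃! B : ℕ → ℚ, IsHypergeometricBernoulli b B := by
  let F : (n : ℕ) → ((m : ℕ) → m < n → ℚ) → ℚ := fun n f =>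
    if n = 0 then 1 else
      - ∑ k ∈ (Finset.range n).attach, (n.choose k : ℚ) * f k (Finset.mem_range.mp k.2) /
        ((b + (n - k)).choose (n - k) : ℚ)
  refine ⟨fun n => Nat.strongRec F n, ?_, ?_⟩
  · change IsHypergeometricBernoulli b _
    rw [rec_iff]
    constructor
    · rw [Nat.strongRec_eq]; simp [F]
    · intro n hn
      rw [Nat.strongRec_eq]
      simp only [F]
      rw [if_neg (by omega)]
      rw [Finset.sum_attach (Finset.range n) (fun k => (n.choose k : ℚ) * (Nat.strongRec F k) /
        ((b + (n - k)).choose (n - k) : ℚ))]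
  · intro B' hB'
    rw [rec_iff] at hB'
    funext n
    induction n using Nat.strong_induction_on with
    | _ n ih =>
      rw [Nat.strongRec_eq]
      simp only [F]
      by_cases hn : n = 0
      · rw [if_pos hn, hn, hB'.1]
      · rw [if_neg hn, hB'.2 n (by omega)]
        rw [Finset.sum_attach (Finset.range n) (fun k => (n.choose k : ℚ) * (Nat.strongRec F k) /
          ((b + (n - k)).choose (n - k) : ℚ))]
        congr 1
        apply Finset.sum_congr rfl
        intro k hk
        rw [Finset.mem_range] at hk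
        rw [ih k hk]

/-- rational numbers with odd denominator -/
def Good (x : ℚ) : Prop := ∃ (a : ℤ) (m : ℕ), Odd m ∧ x * m = a

lemma good_iff (x : ℚ) : Good x ↔ Odd x.den := by
  constructor
  · rintro ⟨a, m, hm, h⟩
    have hd : (x.den : ℤ) ∣ m := by
      have h1 : x * (m : ℤ) = (a : ℚ) := by exact_mod_cast h
      have h2 : (x.num : ℚ) * (m : ℤ) = a * x.den := by
        have hx := Rat.num_div_den x
        have hne : (x.den : ℚ) ≠ 0 := by exact_mod_cast x.den_nz
        rw [← hx] at h1
        field_simp at h1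
        rw [h1]
        ring
      have h3 : x.num * (m : ℤ) = a * x.den := by exact_mod_cast h2
      have h4 : (x.den : ℤ) ∣ x.num * m := ⟨a, by rw [h3]; ring⟩
      have h5 : IsCoprime (x.den : ℤ) x.num := by
        rw [Int.isCoprime_iff_gcd_eq_one, Int.gcd_comm]
        exact x.reduced
      exact h5.dvd_of_dvd_mul_left h4
    have hd' : x.den ∣ m := by exact_mod_cast hd
    exact hm.of_dvd_nat hd'
  · intro h
    exact ⟨x.num, x.den, h, Rat.mul_den_eq_num x⟩

lemma Good.add {x y : ℚ} (hx : Good x) (hy : Good y) : Good (x + y) := by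
  obtain ⟨a, m, hm, h⟩ := hx
  obtain ⟨c, n, hn, h'⟩ := hy
  refine ⟨a * n + c * m, m * n, hm.mul hn, ?_⟩
  push_cast
  rw [← h, ← h']
  ring

lemma Good.mul {x y : ℚ} (hx : Good x) (hy : Good y) : Good (x * y) := by
  obtain ⟨a, m, hm, h⟩ := hx
  obtain ⟨c, n, hn, h'⟩ := hy
  refine ⟨a * c, m * n, hm.mul hn, ?_⟩
  push_cast
  rw [← h, ← h']
  ring

lemma Good.neg {x : ℚ} (hx : Good x) : Good (-x) := by
  obtain ⟨a, m, hm, h⟩ := hx
  refine ⟨-a, m, hm, ?_⟩
  push_cast
  rw [← h]
  ring

lemma good_nat (n : ℕ) : Good (n : ℚ) := ⟨n, 1, odd_one, by simp⟩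

lemma good_sum {s : Finset ℕ} {f : ℕ → ℚ} (h : ∀ k ∈ s, Good (f k)) : Good (∑ k ∈ s, f k) := by
  classical
  induction s using Finset.induction_on with
  | empty => simpa using good_nat 0
  | insert a s ha ih =>
    rw [Finset.sum_insert ha]
    exact (h a (by simp)).add (ih (fun k hk => h k (by simp [hk])))

lemma good_inv {n : ℕ} (hn : Odd n) : Good (1 / (n : ℚ)) := by
  have : (n : ℚ) ≠ 0 := by
    have := hn.pos
    exact_mod_cast this.ne'
  exact ⟨1, n, hn, by field_simp; simp⟩

lemma not_good_inv {n : ℕ} (h0 : n ≠ 0) (hn : Even n) : ¬ Good (1 / (n : ℚ)) := by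
  rintro ⟨a, m, hm, h⟩
  have h0' : (n : ℚ) ≠ 0 := by exact_mod_cast h0
  have h1 : (m : ℚ) = a * n := by
    field_simp at h
    rw [h]
    ring
  have h2 : (m : ℤ) = a * n := by exact_mod_cast h1
  have h3 : (2 : ℤ) ∣ (m : ℤ) := by
    rw [h2]
    exact Dvd.dvd.mul_left (by exact_mod_cast hn.two_dvd) a
  have h4 : 2 ∣ m := by exact_mod_cast h3
  have := hm.not_two_dvd_nat
  exact this h4

/-- `C(b + j, j)` is odd for `j < 2 ^ v` when `2 ^ v ∣ b` -/
lemma odd_choose (v b : ℕ) (hb : 2 ^ v ∣ b) : ∀ j, j < 2 ^ v → Odd ((b + j).choose j) := by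
  intro j
  induction j with
  | zero => intro _; simp
  | succ j ih =>
    intro hj
    have ih' := ih (by omega)
    have h1 : (b + (j + 1)).choose (j + 1) * (j + 1) = (b + j).choose j * (b + j + 1) := by
      have := Nat.add_one_mul_choose_eq (b + j) j
      rw [show b + (j + 1) = b + j + 1 from rfl]
      linarith
    obtain ⟨a, o, ho, hao⟩ := Nat.exists_eq_two_pow_mul_odd (n := j + 1) (by omega)
    have hav : a < v := by
      by_contra hcon
      have h2 : 2 ^ v ≤ 2 ^ a := Nat.pow_le_pow_right (by norm_num) (by omega)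
      have h3 : 0 < o := ho.pos
      have : 2 ^ a ≤ j + 1 := by rw [hao]; exact Nat.le_mul_of_pos_right _ h3
      omega
    obtain ⟨c, hc⟩ := hb
    obtain ⟨d, hd⟩ : ∃ d, v = a + (d + 1) := ⟨v - a - 1, by omega⟩
    have h4 : b + j + 1 = 2 ^ a * (2 * (2 ^ d * c) + o) := by
      rw [add_assoc, hao, hc, hd, pow_add, pow_succ]
      ring
    have h5 : Odd (2 * (2 ^ d * c) + o) := (even_two_mul _).add_odd ho
    have h6 : (b + (j + 1)).choose (j + 1) * o = (b + j).choose j * (2 * (2 ^ d * c) + o) := by
      have h7 : 2 ^ a * ((b + (j + 1)).choose (j + 1) * o) =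
          2 ^ a * ((b + j).choose j * (2 * (2 ^ d * c) + o)) := by
        calc 2 ^ a * ((b + (j + 1)).choose (j + 1) * o)
            = (b + (j + 1)).choose (j + 1) * (2 ^ a * o) := by ring
          _ = (b + (j + 1)).choose (j + 1) * (j + 1) := by rw [← hao]
          _ = (b + j).choose j * (b + j + 1) := h1
          _ = (b + j).choose j * (2 ^ a * (2 * (2 ^ d * c) + o)) := by rw [h4]
          _ = _ := by ring
      exact Nat.eq_of_mul_eq_mul_left (by positivity) h7
    have h8 : Odd ((b + (j + 1)).choose (j + 1) * o) := by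
      rw [h6]; exact ih'.mul h5
    exact (Nat.odd_mul.mp h8).1

/-- `C(b + q, q)` is even for `q = 2 ^ v`, `b = q * o`, `o` odd -/
lemma even_choose (v o : ℕ) (ho : Odd o) :
    Even ((2 ^ v * o + 2 ^ v).choose (2 ^ v)) := by
  obtain ⟨q, hq⟩ : ∃ q, 2 ^ v = q + 1 := ⟨2 ^ v - 1, by
    have : 0 < 2 ^ v := by positivity
    omega⟩
  have h1 : ((2 ^ v * o + 2 ^ v).choose (2 ^ v)) * 2 ^ v =
      (2 ^ v * o + q).choose q * (2 ^ v * o + 2 ^ v) := by
    have := Nat.add_one_mul_choose_eq (2 ^ v * o + q) q
    have e : 2 ^ v * o + 2 ^ v = 2 ^ v * o + q + 1 := by rw [add_assoc, ← hq]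
    rw [e]
    rw [show (2 ^ v * o + q + 1).choose (2 ^ v) = (2 ^ v * o + q + 1).choose (q + 1) by rw [hq]]
    rw [show (2 ^ v * o + q + 1).choose (q + 1) * 2 ^ v =
      (2 ^ v * o + q + 1).choose (q + 1) * (q + 1) by rw [← hq]]
    linarith
  have h2 : ((2 ^ v * o + 2 ^ v).choose (2 ^ v)) = (2 ^ v * o + q).choose q * (o + 1) := by
    have h3 : 2 ^ v * ((2 ^ v * o + 2 ^ v).choose (2 ^ v)) =
        2 ^ v * ((2 ^ v * o + q).choose q * (o + 1)) := by
      rw [mul_comm, h1]; ring
    exact Nat.eq_of_mul_eq_mul_left (by positivity) h3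
  rw [h2]
  exact (ho.add_one).mul_left _

/-- For every `b ≥ 1` the hypergeometric Bernoulli numbers `B_n^{(b)}` are well defined, and the
least `n` such that the denominator of `B_n^{(b)}` is even is `ν₂(b) + 1` if `4 ∤ b` and
`2 ^ ν₂(b)` if `4 ∣ b`. -/
theorem result : ∀ b : ℕ, 1 ≤ b →
    (∃! B : ℕ → ℚ, IsHypergeometricBernoulli b B) ∧
    ∀ B : ℕ → ℚ, IsHypergeometricBernoulli b B →
      IsLeast {n : ℕ | Even (B n).den}
        (if b % 4 = 0 then 2 ^ padicValNat 2 b else padicValNat 2 b + 1) := by
  intro b hb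
  refine ⟨existsUnique b, ?_⟩
  intro B hB
  obtain ⟨v, o, ho, hbo⟩ := Nat.exists_eq_two_pow_mul_odd (n := b) (by omega)
  have hv : padicValNat 2 b = v := by
    have : Fact (Nat.Prime 2) := ⟨Nat.prime_two⟩
    rw [hbo, padicValNat.mul (by positivity) (ho.pos.ne'), padicValNat.prime_pow,
      padicValNat.eq_zero_of_not_dvd ho.not_two_dvd_nat, add_zero]
  have hval : (if b % 4 = 0 then 2 ^ padicValNat 2 b else padicValNat 2 b + 1) = 2 ^ v := by
    rw [hv]
    split_ifs with h
    · rfl
    · have : v < 2 := by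
        by_contra hcon
        obtain ⟨w, hw⟩ : ∃ w, v = w + 2 := ⟨v - 2, by omega⟩
        apply h
        rw [hbo, hw, pow_add, mul_right_comm]
        exact Nat.mul_mod_left _ 4
      interval_cases v <;> simp
  rw [hval]
  rw [rec_iff] at hB
  have hq : 2 ^ v ∣ b := ⟨o, hbo⟩
  have hgood : ∀ n, n < 2 ^ v → Good (B n) := by
    intro n
    induction n using Nat.strong_induction_on with
    | _ n ih =>
      intro hn
      by_cases hn0 : n = 0
      · rw [hn0, hB.1]; exact good_nat 1
      · rw [hB.2 n (by omega)]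
        apply Good.neg
        apply good_sum
        intro k hk
        rw [Finset.mem_range] at hk
        have h1 := ih k hk (by omega)
        have h2 := good_inv (odd_choose v b hq (n - k) (by omega))
        have h3 := ((good_nat (n.choose k)).mul h1).mul h2
        rw [mul_one_div] at h3
        exact h3
  constructor
  · rw [Set.mem_ofPred_eq, ← Nat.not_odd_iff_even, ← good_iff]
    intro hG
    have hpos : 0 < 2 ^ v := by positivity
    rw [hB.2 (2 ^ v) hpos] at hG
    have hG2 := hG.neg
    rw [neg_neg, ← Finset.sum_erase_add _ _ (Finset.mem_range.mpr hpos)] at hG2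
    have h1 : Good (∑ k ∈ (Finset.range (2 ^ v)).erase 0,
        ((2 ^ v).choose k : ℚ) * B k / ((b + (2 ^ v - k)).choose (2 ^ v - k) : ℚ)) := by
      apply good_sum
      intro k hk
      rw [Finset.mem_erase, Finset.mem_range] at hk
      have h2 := good_inv (odd_choose v b hq (2 ^ v - k) (by omega))
      have h3 := ((good_nat ((2 ^ v).choose k)).mul (hgood k hk.2)).mul h2
      rw [mul_one_div] at h3
      exact h3
    have h2 := hG2.add h1.neg
    rw [add_comm, ← add_assoc, neg_add_cancel, zero_add] at h2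
    simp only [Nat.choose_zero_right, Nat.cast_one, one_mul, Nat.sub_zero, hB.1] at h2
    have h3 := even_choose v o ho
    rw [← hbo] at h3
    exact not_good_inv (Nat.choose_pos (by omega)).ne' h3 h2
  · intro n hn
    rw [Set.mem_ofPred_eq, ← Nat.not_odd_iff_even, ← good_iff] at hn
    by_contra hcon
    exact hn (hgood n (by omega))

end Pool.Agent.Results.MP_375cbb_nt.InitialOddRun
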